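import Pool.Agent.H21.SX.Main

/-!
# Sudakov minoration for log-concave vectors with block symmetries

The coordinates are divided into blocks. The law is invariant under the permutations of the
coordinates inside the blocks and under the change of sign of all coordinates of a block (block `0`
excepted). Unconditional vectors: all blocks have one element. Exchangeable vectors: one block,
with label `0`. The result holds for all linear images of such vectors.
-/

set_option autoImplicit false

open MeasureTheory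
open scoped Pointwise

namespace Pool.Agent.Results.MP_920d63_pr.BlockSymmetric

open Pool.Agent.H57.SM Pool.Agent.H21.SX

/-- the inner product in coordinates -/
theorem inner_eq {n : ℕ} (v w x : EuclideanSpace ℝ (Fin n)) :
    @inner ℝ _ _ (v - w) x = ∑ i, (v.ofLp i - w.ofLp i) * x.ofLp i := by
  rw [PiLp.inner_apply]
  apply Finset.sum_congr rfl
  intro i _
  simp [mul_comm]

theorem bx_of {n : ℕ} {μ : Measure (EuclideanSpace ℝ (Fin n))} (hp : IsProbabilityMeasure μ)
    (hlc : ∀ K L : Set (EuclideanSpace ℝ (Fin n)), IsCompact K → IsCompact L →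
      ∀ t : ℝ, t ∈ Set.Ioo (0 : ℝ) 1 → μ K ^ t * μ L ^ (1 - t) ≤ μ (t • K + (1 - t) • L))
    {β : Fin n → ℕ}
    (hperm : ∀ σ : Equiv.Perm (Fin n), (∀ i, β (σ i) = β i) →
      μ.map (fun x => WithLp.toLp 2 (fun i => x.ofLp (σ i))) = μ)
    (hs : ∀ ε : ℕ → ℝ, (∀ b, ε b = 1 ∨ ε b = -1) → ε 0 = 1 →
      μ.map (fun x => WithLp.toLp 2 (fun i => ε (β i) * x.ofLp i)) = μ) :
    BX β (μ.map (WithLp.ofLp : EuclideanSpace ℝ (Fin n) → Fin n → ℝ)) := by
  have hm : Measurable (WithLp.ofLp : EuclideanSpace ℝ (Fin n) → Fin n → ℝ) :=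
    (PiLp.continuous_ofLp 2 _).measurable
  have hm' : Measurable (WithLp.toLp 2 : (Fin n → ℝ) → EuclideanSpace ℝ (Fin n)) :=
    (PiLp.continuous_toLp 2 _).measurable
  refine ⟨⟨Measure.isProbabilityMeasure_map hm.aemeasurable, ?_⟩, ?_, ?_⟩
  · intro K L hK hL t ht
    have hKm := hK.measurableSet
    have hLm := hL.measurableSet
    have hKc : IsCompact ((WithLp.toLp 2 : (Fin n → ℝ) → EuclideanSpace ℝ (Fin n)) '' K) :=
      hK.image (PiLp.continuous_toLp 2 _)
    have hLc : IsCompact ((WithLp.toLp 2 : (Fin n → ℝ) → EuclideanSpace ℝ (Fin n)) '' L) :=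
      hL.image (PiLp.continuous_toLp 2 _)
    have h1 := hlc _ _ hKc hLc t ht
    have e : ∀ K : Set (Fin n → ℝ), (WithLp.toLp 2 : (Fin n → ℝ) → EuclideanSpace ℝ (Fin n)) '' K =
        WithLp.ofLp ⁻¹' K := by
      intro K
      ext x
      constructor
      · rintro ⟨y, hy, rfl⟩
        exact hy
      · intro hx
        exact ⟨x.ofLp, hx, rfl⟩
    rw [Measure.map_apply hm hKm, Measure.map_apply hm hLm, ← e, ← e]
    refine h1.trans ?_
    refine le_trans (measure_mono ?_) (Measure.le_map_apply hm.aemeasurable _)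
    intro z hz
    rw [Set.mem_add] at hz
    obtain ⟨a, ha, b, hb, rfl⟩ := hz
    obtain ⟨a', ha', rfl⟩ := Set.mem_smul_set.1 ha
    obtain ⟨b', hb', rfl⟩ := Set.mem_smul_set.1 hb
    obtain ⟨x, hx, rfl⟩ := ha'
    obtain ⟨y, hy, rfl⟩ := hb'
    exact ⟨x, hx, y, hy, rfl⟩
  · intro σ hσ
    have h1 := hperm σ hσ
    have hpm : Measurable (fun (x : Fin n → ℝ) (i : Fin n) => x (σ i)) :=
      (perm_cont σ).measurable
    rw [Measure.map_map hpm hm]
    conv_rhs => rw [← h1]
    have hpm' : Measurable (fun x : EuclideanSpace ℝ (Fin n) =>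
        (WithLp.toLp 2 (fun i => x.ofLp (σ i)) : EuclideanSpace ℝ (Fin n))) :=
      hm'.comp (hpm.comp hm)
    rw [Measure.map_map hm hpm']
    rfl
  · intro ε hε
    have h1 := hs (fun b => sg (ε b)) (fun b => by
      cases ε b
      · right; rfl
      · left; rfl) (by rw [hε]; rfl)
    have hsm : Measurable (fun (x : Fin n → ℝ) (i : Fin n) => sg (ε (β i)) * x i) := by
      fun_prop
    rw [Measure.map_map hsm hm]
    conv_rhs => rw [← h1]
    have hsm' : Measurable (fun x : EuclideanSpace ℝ (Fin n) =>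
        (WithLp.toLp 2 (fun i => sg (ε (β i)) * x.ofLp i) : EuclideanSpace ℝ (Fin n))) :=
      hm'.comp (hsm.comp hm)
    rw [Measure.map_map hm hsm']
    rfl

/-- **Sudakov minoration principle for linear images of log-concave vectors with block
symmetries**, with a universal constant. -/
theorem result :
    ∃ κ : ℝ, 0 < κ ∧
      ∀ m n : ℕ, ∀ μ : Measure (EuclideanSpace ℝ (Fin m)), IsProbabilityMeasure μ →
        (∀ K L : Set (EuclideanSpace ℝ (Fin m)), IsCompact K → IsCompact L →
          ∀ t : ℝ, t ∈ Set.Ioo (0 : ℝ) 1 →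
            μ K ^ t * μ L ^ (1 - t) ≤ μ (t • K + (1 - t) • L)) →
        ∀ β : Fin m → ℕ,
        (∀ σ : Equiv.Perm (Fin m), (∀ i, β (σ i) = β i) →
          μ.map (fun x => WithLp.toLp 2 (fun i => x.ofLp (σ i))) = μ) →
        (∀ ε : ℕ → ℝ, (∀ b, ε b = 1 ∨ ε b = -1) → ε 0 = 1 →
          μ.map (fun x => WithLp.toLp 2 (fun i => ε (β i) * x.ofLp i)) = μ) →
        ∀ T : EuclideanSpace ℝ (Fin m) →ₗ[ℝ] EuclideanSpace ℝ (Fin n),
        ∀ p : ℝ, 1 ≤ p →
          ∀ V : Finset (EuclideanSpace ℝ (Fin n)), ∀ hV : V.Nonempty,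
            Real.exp p ≤ (V.card : ℝ) →
            ∀ A : ℝ,
              (∀ v ∈ V, ∀ w ∈ V, v ≠ w →
                A ≤ (∫ y, |@inner ℝ _ _ (v - w) y| ^ p ∂(μ.map T)) ^ (1 / p)) →
              κ * A ≤ ∫ y, V.sup' hV (fun v => V.sup' hV (fun w => @inner ℝ _ _ (v - w) y))
                ∂(μ.map T) := by
  classical
  refine ⟨1 / 10 ^ 17, by norm_num, ?_⟩
  intro m n μ hprob hlc β hperm hs T p hp V hV hcard A hsep
  have hm : Measurable (WithLp.ofLp : EuclideanSpace ℝ (Fin m) → Fin m → ℝ) :=
    (PiLp.continuous_ofLp 2 _).measurable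
  have hTc : Continuous T := LinearMap.continuous_of_finiteDimensional T
  have hTm : Measurable T := hTc.measurable
  set ν := μ.map (WithLp.ofLp : EuclideanSpace ℝ (Fin m) → Fin m → ℝ) with hν
  have h : BX β ν := bx_of hprob hlc hperm hs
  -- the adjoint
  set S : EuclideanSpace ℝ (Fin n) → Fin m → ℝ := fun v => (LinearMap.adjoint T v).ofLp with hS
  have hST : ∀ (v w : EuclideanSpace ℝ (Fin n)) (x : EuclideanSpace ℝ (Fin m)),
      @inner ℝ _ _ (v - w) (T x) = ∑ i, (S v i - S w i) * x.ofLp i := by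
    intro v w x
    rw [← LinearMap.adjoint_inner_left, map_sub, inner_eq]
  set V' : Finset (Fin m → ℝ) := V.image S with hV'
  have hV'n : V'.Nonempty := hV.image _
  -- the two suprema agree
  have hsup : ∀ x : EuclideanSpace ℝ (Fin m),
      V.sup' hV (fun v => V.sup' hV (fun w => @inner ℝ _ _ (v - w) (T x))) =
        Sup V' hV'n x.ofLp := by
    intro x
    apply le_antisymm
    · apply Finset.sup'_le
      intro v hv
      apply Finset.sup'_le
      intro w hw
      rw [hST]
      exact le_Sup hV'n _ (Finset.mem_image_of_mem _ hv) (Finset.mem_image_of_mem _ hw)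
    · apply Sup_le
      intro v' hv' w' hw'
      obtain ⟨v, hv, rfl⟩ := Finset.mem_image.1 hv'
      obtain ⟨w, hw, rfl⟩ := Finset.mem_image.1 hw'
      rw [← hST]
      have h1 : @inner ℝ _ _ (v - w) (T x) ≤
          V.sup' hV (fun w => @inner ℝ _ _ (v - w) (T x)) :=
        Finset.le_sup' (fun w => @inner ℝ _ _ (v - w) (T x)) hw
      have h2 : V.sup' hV (fun w => @inner ℝ _ _ (v - w) (T x)) ≤
          V.sup' hV (fun v => V.sup' hV (fun w => @inner ℝ _ _ (v - w) (T x))) :=
        Finset.le_sup' (fun v => V.sup' hV (fun w => @inner ℝ _ _ (v - w) (T x))) hv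
      exact h1.trans h2
  have hcont : Continuous fun y : EuclideanSpace ℝ (Fin n) =>
      V.sup' hV (fun v => V.sup' hV (fun w => @inner ℝ _ _ (v - w) y)) := by
    have e1 : (fun y : EuclideanSpace ℝ (Fin n) =>
        V.sup' hV (fun v => V.sup' hV (fun w => @inner ℝ _ _ (v - w) y))) =
        V.sup' hV fun v y => V.sup' hV (fun w => @inner ℝ _ _ (v - w) y) := by
      funext y
      rw [Finset.sup'_apply]
    rw [e1]
    apply Continuous.finset_sup'
    intro v _
    have e2 : (fun y : EuclideanSpace ℝ (Fin n) =>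
        V.sup' hV (fun w => @inner ℝ _ _ (v - w) y)) =
        V.sup' hV fun w y => @inner ℝ _ _ (v - w) y := by
      funext y
      rw [Finset.sup'_apply]
    rw [e2]
    apply Continuous.finset_sup'
    intro w _
    fun_prop
  have hint : ∫ y, V.sup' hV (fun v => V.sup' hV (fun w => @inner ℝ _ _ (v - w) y)) ∂(μ.map T) =
      ∫ x, Sup V' hV'n x ∂ν := by
    rw [integral_map hTm.aemeasurable hcont.aestronglyMeasurable, hν,
      integral_map hm.aemeasurable (Sup_cont hV'n).aestronglyMeasurable]
    exact integral_congr_ae (Filter.Eventually.of_forall hsup)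
  rw [hint]
  rcases le_or_gt A 0 with hA | hA
  · have h0 : 0 ≤ ∫ x, Sup V' hV'n x ∂ν := integral_nonneg fun x => Sup_nonneg hV'n x
    have : 1 / 10 ^ 17 * A ≤ 0 := mul_nonpos_of_nonneg_of_nonpos (by norm_num) hA
    linarith
  · have hsep' : ∀ v ∈ V, ∀ w ∈ V, v ≠ w → A ≤ nr ν p (fun i => S v i - S w i) := by
      intro v hv w hw hvw
      rw [x27_nrm h.lc _ hp]
      refine (hsep v hv w hw hvw).trans (le_of_eq ?_)
      congr 1
      rw [integral_map hTm.aemeasurable, hν, integral_map hm.aemeasurable]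
      · apply integral_congr_ae
        exact Filter.Eventually.of_forall fun x => by
          simp only []
          rw [hST]
      · apply Measurable.aestronglyMeasurable
        fun_prop
      · apply Measurable.aestronglyMeasurable
        fun_prop
    have hinj : Set.InjOn S (V : Set (EuclideanSpace ℝ (Fin n))) := by
      intro v hv w hw hvw
      by_contra hne
      have h1 := hsep' v (Finset.mem_coe.1 hv) w (Finset.mem_coe.1 hw) hne
      have h2 : (fun i => S v i - S w i) = fun _ => 0 := by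
        funext i
        rw [hvw, sub_self]
      rw [h2, nr_zero] at h1
      linarith
    have hcard' : Real.exp p ≤ (V'.card : ℝ) := by
      rw [hV', Finset.card_image_of_injOn hinj]
      exact hcard
    have hmain := bx_smp h hp hA V' hV'n (by
      intro v' hv' w' hw' hvw
      obtain ⟨v, hv, rfl⟩ := Finset.mem_image.1 hv'
      obtain ⟨w, hw, rfl⟩ := Finset.mem_image.1 hw'
      have hne : v ≠ w := fun e => hvw (by rw [e])
      exact hsep' v hv w hw hne) hcard'
    calc 1 / 10 ^ 17 * A = A / 10 ^ 17 := by ring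
      _ ≤ _ := hmain

end Pool.Agent.Results.MP_920d63_pr.BlockSymmetric
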